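import Pool.Agent.N636.TD.All

/-!
A Turing degree below `0^(ω)` which is not the degree of any complete theory with a computable
model.

Idea of the proof. The theories of the computable structures, for all computable signatures, form a
family `T_0, T_1, ...` of sets which is uniformly computable in `∅^(ω)` (each of them is even
many-one reducible to `∅^(ω)`, uniformly). The set `D` is constructed by finite extensions,
computably in `∅^(ω)`, such that `D` is Turing equivalent to no `T_i`: for the requirement that `T_i`
and `D` are not computable in each other with the programs `e₁` and `e₂`, let `σ` be the string
constructed so far and `x = |σ|`. For `b = 0, 1` one looks for a string `τ` extending `σ b` from which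
`e₁` computes a string `ρ` such that `e₂` computes from `ρ` a value `v` at `x`. If there is none then
`σ b` is taken. Otherwise one finds `τ_0, ρ_0, v_0` and `τ_1, ρ_1, v_1`. If one of `ρ_0, ρ_1` is not an
initial segment of `T_i` then the corresponding `τ` is taken. If both are initial segments of `T_i`
then `v_0 = v_1`, and the `τ_b` with `b ≠ v_0` is taken.
-/

set_option autoImplicit false

namespace Pool.Agent.Results.MP_f36693_lc.NoTheoryOfDegree

open Pool.Agent.N636.TD

/-- There is a set `D` computable in `∅^(ω)` such that no complete theory (in a computable
signature) which is Turing equivalent to `D` has a computable model. -/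
theorem result : ∃ D : Set ℕ, TRed D omegaJump ∧
    ∀ L : Sig, L.Comp → ∀ T : Set Fm, IsComplete L T →
      TRed (Fm.code '' T) D → TRed D (Fm.code '' T) →
        ¬ ∃ M : Str L, M.Comp ∧ ∀ φ ∈ T, Models M φ := main

end Pool.Agent.Results.MP_f36693_lc.NoTheoryOfDegree
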